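import Pool.Agent.N202.NC.MainE

/-!
# Hodge classes and de Rham–Betti classes: the fourth power decides

`X` is a smooth projective variety over `Q̄`, `P` the polarised Hodge structure `H(X(ℂ), ℚ)`, `e` a
period matrix of `X`.  Assume that `X` has no CM part (the centre of the algebra of endomorphisms of
`P` is totally real).

* If the Hodge classes on `X^4` are de Rham–Betti classes, so are the Hodge classes on all powers
  `X^n`.
* Assume that the Lie algebra of the de Rham–Betti group has a complement in `End H(X)` (true if
  this group is reductive) and that the Hodge classes on `X^2` are de Rham–Betti classes.  If the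
  de Rham–Betti classes on `X^4` are Hodge classes, so are those on all powers `X^n`.
-/

namespace Pool.Agent.Results.MP_470b79_ag.FourthPowerDeRhamBetti

open Pool.Agent.N202.NC

theorem result (ι : Type) [Fintype ι] [DecidableEq ι] (P : HodgeStructure ι)
    (e : Matrix ι ι ℂ) : IsPeriodMatrix P e → P.NoCM →
    (HodgeIsDRB P e 4 → ∀ n, 0 < n → HodgeIsDRB P e n) ∧
    (HasComplement P e → HodgeIsDRB P e 2 → DRBIsHodge P e 4 →
      ∀ n, 0 < n → DRBIsHodge P e n) :=
  fun hE hP => ⟨fun h4 _ hn => drb_main1 hE hP h4 hn, fun hc h2 h4 _ hn =>
    drb_main2 hE hP hc h2 h4 hn⟩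

end Pool.Agent.Results.MP_470b79_ag.FourthPowerDeRhamBetti
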