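import Pool.Agent.N733.TG.M
import Pool.Agent.N733.TG.K
import Pool.Agent.Results.MP_470b79_ag.MonodromyTorsors

/-!
# De Rham-Betti groups of the fibres at the values of multiplicative functions contain the connected monodromy group

Let `Z` be a fundamental matrix, regular at `z = 0`, of a system `f Z' = Z A` over `ℚ(z)` such that the entries of `Z` and of
its inverse are G-functions, for example the matrix of the Gauss-Manin connection of `h^i` of ANY family of smooth
projective varieties over `ℚ(z)` with good fibre at `z = 0`, and let `Ω` be any invertible complex matrix (the periods of the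
fibre at `z = 0`); then `Ω Z(1/x)` is the period matrix of the fibre `M_x` at `z = 1/x`. Let `g_1, …, g_k` be positive
multiplicative functions of at most polynomial growth, linearly bounded and injective at the large primes, for example
Euler's function or the sum of the divisors. Then for every number field `K` and every de Rham-Betti object `M_0` over `K`
and for all `k`-tuples `(a_1, …, a_k)` of numbers `≤ N` but `N^k / (log N)^U`:

1. every `K`-subtorsor of `Iso(M_dR, M_B)`, `M = M_0 ⊕ M_(g_1 a_1) ⊕ … ⊕ M_(g_k a_k)`, which contains the period matrix is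
stable under `1 × G^k`, where `G` is the connected monodromy group (in the sense of `MonodromyTorsors`);
2. every de Rham-Betti class in a mixed tensor space of `M` is fixed by `1 × G^k`;
3. the Lie algebra of the group of such a subtorsor is normalised by `1 × Gal^k`.

The number `N₀` from which on this holds depends only on the family, on `k`, `U`, the functions `g_i`, the degree of `K` and the
rank of `M_0`. The values of `g_i` are in general taken with very large multiplicities, so this does not follow from the
number of exceptional tuples alone.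

Proof. The starting theorem `MonodromyTorsors` of this problem shows that the exceptional set of tuples has a power saving;
such sets are avoided by the values of multiplicative functions of this kind (`Pool/Agent/N733/TG`, helper733).
-/

set_option autoImplicit false

open PowerSeries

namespace Pool.Agent.Results.MP_470b79_ag.MultiplicativeValues

open Pool.Agent.N733.TG (LM lm_totient lm_sigma keep_tuples2)
open Pool.Agent.Results.MP_470b79_ag.MonodromyTorsors (GCond Full)

/-- **De Rham-Betti groups at the values of multiplicative functions.** Let `f Z' = Z A`, `W Z = 1`, where `f ∈ ℚ[z]`,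
`f(0) ≠ 0`, `A` is a matrix over `ℚ[z]` and the entries of `Z` and `W` are G-functions with rational coefficients. There is
`x₀` such that for all `k ≥ 1`, `D`, `r`, for all `g_1, …, g_k` which are multiplicative, positive, of at most polynomial
growth, with `g_i p ≤ L p` at the large primes, and injective there, and for every `U` and all large `N`: for all invertible
`Ω`, all number fields `K` of degree `≤ D` and all complex matrices `C₀` of rank `r` the conclusion `Full` of
`MonodromyTorsors` holds for the periods of `M_0` and of the fibres at `z = 1 / g_i(a_i)` for all `a ∈ {1, …, N}^k` but at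
most `N^k / (log N)^U`. Euler's function and the sum of the divisors are examples of such functions `g_i`. -/
theorem result :
    (∀ (n : ℕ) (f : Polynomial ℚ) (A : Matrix (Fin n) (Fin n) (Polynomial ℚ)) (Z W : Matrix (Fin n) (Fin n) ℚ⟦X⟧),
      f.coeff 0 ≠ 0 →
      (∀ i j, (f : ℚ⟦X⟧) * PowerSeries.derivative ℚ (Z i j) = ∑ k, Z i k * (A k j : ℚ⟦X⟧)) →
      W * Z = 1 → (∀ i j, GCond (Z i j)) → (∀ i j, GCond (W i j)) →
      ∃ x₀ : ℕ, ∀ k D r : ℕ, 1 ≤ k → ∀ g : Fin k → ℕ → ℕ, (∀ i, LM (g i)) → ∀ U : ℕ, ∃ N₀ : ℕ, ∀ N : ℕ, N₀ ≤ N →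
      ∀ Ω : Matrix (Fin n) (Fin n) ℂ, IsUnit Ω → ∀ K : Subfield ℂ, FiniteDimensional ℚ K → Module.finrank ℚ K ≤ D →
      ∀ C₀ : Matrix (Fin r) (Fin r) ℂ,
      ({a : Fin k → ℕ | (∀ i, 1 ≤ a i ∧ a i ≤ N) ∧ ¬ Full K C₀ Ω Z x₀ (fun i => g i (a i))}.ncard : ℝ) ≤
        (N : ℝ) ^ k / Real.log N ^ U) ∧
    LM Nat.totient ∧ LM (fun m => ∑ d ∈ m.divisors, d) := by
  classical
  refine ⟨fun n f A Z W hf hode hW hGZ hGW => ?_, lm_totient, lm_sigma⟩
  obtain ⟨x₀, G, hmain⟩ := MonodromyTorsors.result n f A Z W hf hode hW hGZ hGW
  refine ⟨x₀, fun k D r hk g hg U => ?_⟩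
  obtain ⟨-, c, hc, C, hcount⟩ := hmain k D r
  obtain ⟨N₀, hN₀⟩ := keep_tuples2 hk hg hc U C
  refine ⟨N₀, fun N hN Ω hΩ K hK hKD C₀ => ?_⟩
  have h1 := hN₀ N hN {m : Fin k → ℕ | ¬ Full K C₀ Ω Z x₀ m} (fun T hT => by
    refine le_trans ?_ (hcount Ω hΩ K hK hKD C₀ T hT)
    rw [← Set.ncard_coe_finset]
    refine Nat.cast_le.2 (Set.ncard_le_ncard ?_ (Finset.finite_toSet _))
    rintro m ⟨hm, hm2⟩
    rw [Finset.mem_coe, Finset.mem_filter, Fintype.mem_piFinset]
    refine ⟨fun i => ?_, hm2⟩
    rw [Finset.mem_Icc]
    exact hm i)
  refine le_trans ?_ h1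
  refine Nat.cast_le.2 (Set.ncard_le_ncard ?_
    ((Set.finite_Iic (fun _ => N : Fin k → ℕ)).subset fun a ha => fun i => (ha.1 i).2))
  rintro a ⟨ha, hV⟩
  exact ⟨ha, fun h => h.2 hV⟩

end Pool.Agent.Results.MP_470b79_ag.MultiplicativeValues
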