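import Pool.Agent.N208.NC.All

set_option autoImplicit false

/-!
# Period groups are not compact where the Mumford-Tate group is not compact

Let `A` be an abelian variety over `ℚ̄` and let `M` be any André motive over `ℚ̄` in the tensor
category generated by `h^1(A)` and the Tate motives (every motive of abelian type is of this kind, for a
suitable `A`). Let `P` be the matrix of the comparison isomorphism (the periods) of `M`, and let
`G ⊆ GL(H_B(M))` be *any* algebraic group over `ℚ` such that the comparison isomorphism is a point of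
a torsor of `G` defined over `ℚ̄`: `P T ∈ G(ℂ)` for some matrix `T` with algebraic entries. The
smallest such `G` is the de Rham-Betti group of `M` if `K = ℚ̄`. By theorems of Deligne and André the
motivic Galois group of `M` is its Mumford-Tate group `MT(M)`. The question is whether
`Ω^dRB_M = Ω^And_M`, that is, whether every such `G` contains `MT(M)`.

**Theorem.** Let `U` be a subspace of the real vector space `M_B ⊗ ℝ` which is stable under the
Mumford-Tate group (more precisely, under the Lie algebra of the Hodge group of `M`). Assume that the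
Lie algebra of `G ∩ [Hg(M), Hg(M)]` preserves a positive definite symmetric form on `U`, up to
scalars. Then the complex structure `N` of `M` (the generator of the Lie algebra of the circle) commutes
with the Lie algebra of the Hodge group on `U`: the Hodge group acts on `U` through a group which
is compact, and `N` acts through its centre. In particular, if this holds for `U = M_B ⊗ ℝ`, then the
Mumford-Tate group of `M` is commutative: `M` is of CM type.

So the real group `G ∩ MT(M)` is compact modulo scalars on `U` only if `MT(M)` is compact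
modulo its centre on `U`. If `M` is the adjoint motive, and `U` is a simple factor of the
Lie algebra of `MT(M)^ad ⊗ ℝ` which is not compact, we see: *the image of the Lie algebra of `G ∩ MT(M)`
in every noncompact simple factor of the real Lie algebra of `MT(M)` is not compact*. This holds for all
motives of abelian type, without an assumption on the Mumford-Tate group, and it is a prediction of the
conjecture. Consequences (remarks, not in the theorem): if `G` is solvable, or if the real points of
`G` are compact modulo a solvable normal subgroup, then `M` is of CM type; if the factor is `su(1, 1)`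
then the image of the Lie algebra is everything. By the theorem only the derived algebra is needed:
already the image of the derived algebra of the Lie algebra of `G ∩ MT(M)` is not compact.

Nothing is assumed about periods: `AbVar` is the description of an abelian variety over `ℚ̄` by theta
functions (see `Pool/Agent/Y102/AVDefs.lean`, where it is explained why every abelian variety has it),
and the transcendence theorems which are used, the theorem of Schneider and Lang and the
transcendence of `π`, are proved in this repository. The group `G` is not assumed to be reductive.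

## Motives

As `h^1(A)` is dual to `h^1(A)(1)`, the motive `M` is a direct factor of a sum of motives
`h^1(A) ^ {⊗ r i} (w i)`. Its Betti realization is a space of families of multilinear forms with
rational values, in `r i` variables in `H_1(A, ℚ)`, with a basis `B`. It is the image of a motivated
projector, and the realizations of motivated classes are Hodge classes and de Rham-Betti classes; so
it is stable under the Lie algebra `𝔤` of the endomorphisms of `H_1(A, ℚ)` which annihilate all
classes that are Hodge classes and de Rham-Betti classes (`InLie`), and under the weights. The de Rham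
realization has a basis which consists of combinations of products of elements of `H^1_dR(A / ℚ̄)`
with algebraic coefficients. The matrix `P` of the periods expresses it in terms of the basis
`(2 π i) ^ (w i) B` of the Betti realization (`IsMotive`). By the theorem of Deligne `𝔤` is the Lie
algebra of the Hodge group of `A`, and its image in the endomorphisms of `M` is the Lie algebra of
the Hodge group of `M`.

## Proof

Let `𝔮` be the set of the `X` in `𝔤` whose action on `M` is in the Lie algebra of `G` up to a
multiple of the weight operator. By the theorem of Schneider and Lang `𝔮` acts semisimply on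
`V = H_1(A, ℚ)`, with the same commutant as `𝔤` (`Pool.Agent.N208.AM.qM_full`). But the commutant of
`𝔮` in `End(M)` is not known.

1. Let `𝔫` be the kernel of the action of `𝔤 ⊗ ℝ` on `U`. It is an ideal, and `𝔤 ⊗ ℝ` is the sum of
   `𝔫` and of the orthogonal ideal `𝔰` for the trace form on `V ⊗ ℝ` (`S_NCD`). Write `J = J₁ + J₂` for
   the complex structure, and `X = X₁ + X₂` for the elements `X` of `𝔮 ⊗ ℝ`.
2. Let `Q` be the group of automorphisms of `V ⊗ ℝ` generated by the `exp (X₂)`. Its adjoint action on
   `𝔰` is bounded, as the adjoint action of `𝔮` on `𝔤 / 𝔫 ⊆ End(U)` preserves a positive definite form.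
   Since `Q` commutes with `J₁ ∈ 𝔫`, the set of the `q J q⁻¹` is bounded. For the Riemann form `E` we
   have `E(q⁻¹ x, J q⁻¹ x) = E(x, q J q⁻¹ x)`, so `Q` itself is bounded.
3. `Q` has a fixed point `z₀` in the closed convex hull of the set of the `q J q⁻¹`. The form
   `E(x, z₀ y)` is symmetric and positive definite, and `z₀ - J₁ ∈ 𝔰` commutes with `𝔮`. So it
   commutes with `𝔤`, because `𝔮` and `𝔤` have the same commutant. Hence `z₀` commutes with `𝔰`, and
   `𝔰` preserves the positive definite form `E(x, z₀ y)`. The elements `Y + J Y J` (`Y ∈ 𝔰`) are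
   symmetric for the form `E(x, J y)` and skew for `E(x, z₀ y)`, so they are zero, and `J` commutes with
   `𝔰` (`S_NCE`).
4. So `[J, Y] ∈ 𝔫` for all `Y` in `𝔤 ⊗ ℝ`, and `N` commutes with `𝔤` on `U`.
-/

open Module Matrix Pool.Agent.Y102 Pool.Agent.W516.DR Pool.Agent.H204R3.GP

noncomputable section

namespace Pool.Agent.Results.MP_470b79_ag.NoncompactPeriodGroups

variable {g : ℕ} (A : AbVar g)

/-! ### The Lie algebra -/

/-- The multilinear forms in `2m` variables in the rational homology. -/
abbrev Form (m : ℕ) : Type := MultilinearMap ℚ (fun _ : Fin m × Fin 2 => A.H1) ℚ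

/-- `φ` is a de Rham-Betti class in `H^1(A) ^ {⊗ 2m} (m)`. -/
def IsDRB {m : ℕ} (φ : Form A m) : Prop :=
  IsDeRhamBettiForm QBar A.dR (2 * Real.pi * Complex.I) m φ

/-- `φ` is a Hodge class in `H^1(A) ^ {⊗ 2m} (m)`. -/
def IsHodge {m : ℕ} (φ : Form A m) : Prop := IsHodgeTensor (A.per : A.H1 →+ (Fin g → ℂ)) φ

/-- The endomorphism `X` annihilates the form `φ` (as a derivation). -/
def Annihilates {m : ℕ} (X : Module.End ℚ A.H1) (φ : Form A m) : Prop :=
  ∀ v, ∑ k, φ (Function.update v k (X (v k))) = 0

/-- `X` is in the Lie algebra `𝔤`: it annihilates all classes that are Hodge classes and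
de Rham-Betti classes. -/
def InLie (X : Module.End ℚ A.H1) : Prop :=
  ∀ (m : ℕ) (φ : Form A m), IsHodge A φ → IsDRB A φ → Annihilates A X φ

/-! ### Motives -/

variable {s n : ℕ} (r : Fin s → ℕ) (w : Fin s → ℤ)

/-- The Betti realization of the sum of the motives `h^1(A) ^ {⊗ r i} (w i)`: families of multilinear
forms in `r i` variables in the rational homology. -/
abbrev Tensors : Type := ∀ i : Fin s, MultilinearMap ℚ (fun _ : Fin (r i) => A.H1) ℚ

variable {A r}

/-- `M` is the matrix of the action of the endomorphism `X` of the rational homology of `A` (as a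
derivation) on the space of tensors with the basis `B`. -/
def IsLieMatrix (B : Fin n → Tensors A r) (X : Module.End ℚ A.H1)
    (M : Matrix (Fin n) (Fin n) ℚ) : Prop :=
  ∀ a i v, ∑ k, B a i (Function.update v k (X (v k))) = ∑ b, M b a * B b i v

/-- The subspace with the basis `B` is the Betti realization of a direct factor `M` of the sum of the
motives `h^1(A) ^ {⊗ r i} (w i)`, and `P` is the matrix of the periods of `M` for the basis `B` and for
some basis of the de Rham realization of `M` over `ℚ̄`. -/
structure IsMotive (B : Fin n → Tensors A r) (P : Matrix (Fin n) (Fin n) ℂ) : Prop where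
  /-- `B` is a basis of a subspace -/
  basis : LinearIndependent ℚ B
  /-- the subspace is stable under `𝔤` -/
  lie : ∀ X, InLie A X → ∃ M : Matrix (Fin n) (Fin n) ℚ, IsLieMatrix B X M
  /-- the subspace is stable under the weights -/
  weight : ∃ M : Matrix (Fin n) (Fin n) ℚ, ∀ a i v,
    ((r i : ℚ) - 2 * w i) * B a i v = ∑ b, M b a * B b i v
  /-- the de Rham realization has a basis of elements with algebraic coefficients in terms of the
  tensor products of the elements of the basis of `H^1_dR(A / ℚ̄)` -/
  deRham : ∃ c : Fin n → ∀ i : Fin s, (Fin (r i) → Fin g ⊕ Fin g) → ℂ,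
    (∀ a i J, IsAlgebraic ℚ (c a i J)) ∧ ∀ a i (v : Fin (r i) → A.H1),
      ∑ J, c a i J * ∏ k, A.dR (J k) (v k) =
        (2 * Real.pi * Complex.I) ^ (w i) * ∑ b, P b a * (B b i v : ℂ)
  /-- the matrix of the periods is invertible -/
  det : P.det ≠ 0

/-! ### The complex structure -/

/-- `N` is the matrix of the action on `M` of the multiplication with `i` on `H_1(A, ℝ) = ℂ ^ g` (as a
derivation): the generator of the Lie algebra of the circle in the Hodge structure of `M`. -/
def IsComplexStructure (B : Fin n → Tensors A r) (N : Matrix (Fin n) (Fin n) ℝ) : Prop :=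
  ∀ a i (j : Fin (r i) → Fin (2 * g)),
    ∑ k, ∑ l : Fin (2 * g), A.lam.repr (Complex.I • A.lam (j k)) l *
        (B a i (Function.update (fun p => Pi.single (j p) 1) k (Pi.single l 1)) : ℝ) =
      ∑ b, N b a * (B b i (fun p => Pi.single (j p) 1) : ℝ)

variable (A) in
/-- The derived algebra `[𝔤, 𝔤]`. -/
def derivedLie : Submodule ℚ (Module.End ℚ A.H1) :=
  Submodule.span ℚ {Z | ∃ X, InLie A X ∧ ∃ Y, InLie A Y ∧ Z = X * Y - Y * X}

/-! ### Algebraic groups, torsors and the Mumford-Tate group -/

/-- A subgroup of `GL_R(ℂ)` defined by polynomials with rational coefficients. -/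
def IsAlgebraicSubgroup {R : Type} [Fintype R] [DecidableEq R] (G : Subgroup (GL R ℂ)) : Prop :=
  ∃ I : Set (MvPolynomial (R × R) ℚ), ∀ x : GL R ℂ, x ∈ G ↔
    ∀ p ∈ I, MvPolynomial.aeval (fun b : R × R => (x : Matrix R R ℂ) b.1 b.2) p = 0

/-- The torsor `G · T⁻¹` of `G`: the matrices `F` such that `F T` is an element of `G`. It is
defined over `ℚ̄` if `T` is a matrix with algebraic entries. -/
def torsor (G : Subgroup (GL (Fin n) ℂ)) (T : Matrix (Fin n) (Fin n) ℂ) :
    Set (Matrix (Fin n) (Fin n) ℂ) :=
  {F | ∃ x ∈ G, (x : Matrix (Fin n) (Fin n) ℂ) = F * T}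

variable (A) in
/-- The Hodge structure of `H^1(A)`: the complex number `z` acts on `H_1(A, ℝ) = ℂ ^ g` by
multiplication, and on `H^1(A, ℝ)` by the transposed map, here in the basis of `H^1(A, ℚ)` which is
dual to the basis of the lattice. -/
def hodge (z : ℂ) : Matrix (Fin (2 * g)) (Fin (2 * g)) ℂ :=
  Matrix.of fun i j => ((A.lam.repr (z • A.lam i) j : ℝ) : ℂ)

/-- `R` is the matrix of the action of the complex number `z` on `M`, in the Hodge structure given by
those of `H^1(A)` and of the Tate motives (`z` acts on `ℚ(1)` by `(z z̄)⁻¹`). -/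
def IsHodgeMatrix (B : Fin n → Tensors A r) (z : ℂ) (R : Matrix (Fin n) (Fin n) ℂ) : Prop :=
  ∀ a i (j : Fin (r i) → Fin (2 * g)),
    ∑ j' : Fin (r i) → Fin (2 * g), (∏ k, hodge A z (j k) (j' k)) *
        (B a i (fun k => Pi.single (j' k) 1) : ℂ) =
      (z * (starRingEnd ℂ) z) ^ (w i) * ∑ b, R b a * (B b i (fun k => Pi.single (j k) 1) : ℂ)

/-- The Mumford-Tate group of `M`: the smallest algebraic group over `ℚ` which contains the image of
the Deligne torus. -/
def mumfordTate (B : Fin n → Tensors A r) : Subgroup (GL (Fin n) ℂ) :=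
  sInf {G | IsAlgebraicSubgroup G ∧ ∀ z : ℂ, z ≠ 0 → ∃ x ∈ G,
    IsHodgeMatrix w B z (x : Matrix (Fin n) (Fin n) ℂ)}

/-! ### Compactness on a real subspace -/

/-- The rational matrix `M` is in the Lie algebra of the group `G`. -/
def InLieOf (G : Subgroup (GL (Fin n) ℂ)) (M : Matrix (Fin n) (Fin n) ℚ) : Prop :=
  ∀ t : ℂ, ∃ x ∈ G, (x : Matrix (Fin n) (Fin n) ℂ) = NormedSpace.exp (t • M.map fun q => (q : ℂ))

/-- The real subspace `U` of `M_B ⊗ ℝ` is stable under the Lie algebra of the Hodge group, and `b` is
a positive definite symmetric form on `U` which is preserved, up to scalars, by the elements of the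
Lie algebra of `G` which are in the derived algebra of the Lie algebra of the Hodge group. -/
structure CompactOn (B : Fin n → Tensors A r) (G : Subgroup (GL (Fin n) ℂ))
    (U : Submodule ℝ (Fin n → ℝ)) (b : (Fin n → ℝ) →ₗ[ℝ] (Fin n → ℝ) →ₗ[ℝ] ℝ) : Prop where
  /-- `U` is stable under the Lie algebra of the Hodge group -/
  stable : ∀ X, InLie A X → ∀ M : Matrix (Fin n) (Fin n) ℚ, IsLieMatrix B X M →
    ∀ u ∈ U, (M.map fun q => (q : ℝ)) *ᵥ u ∈ U
  /-- the form is symmetric and positive definite -/
  symm : ∀ u ∈ U, ∀ v ∈ U, b u v = b v u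
  pos : ∀ u ∈ U, u ≠ 0 → 0 < b u u
  /-- the form is preserved up to scalars -/
  invariant : ∀ X ∈ derivedLie A, ∀ M : Matrix (Fin n) (Fin n) ℚ, IsLieMatrix B X M →
    InLieOf G M → ∃ κ : ℝ, ∀ u ∈ U, ∀ v ∈ U,
      b ((M.map fun q => (q : ℝ)) *ᵥ u) v + b u ((M.map fun q => (q : ℝ)) *ᵥ v) = κ * b u v

/-- **Theorem.** Let `M` be a motive in the tensor category generated by `h^1(A)` and the Tate motives,
with the matrix `P` of periods and the complex structure `N`. Let `G` be an algebraic group over `ℚ`
with a torsor over `ℚ̄` which contains `P`. Let `U` be a real subspace of `M_B ⊗ ℝ`, stable under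
the Lie algebra of the Hodge group, such that the Lie algebra of `G ∩ [Hg(M), Hg(M)]` preserves a
positive definite form on `U` up to scalars.

1. The complex structure `N` commutes with the Lie algebra of the Hodge group on `U`.
2. If `U` is the whole space, then the Mumford-Tate group of `M` is commutative. -/
theorem result {g s n : ℕ} (A : AbVar g) (r : Fin s → ℕ) (w : Fin s → ℤ)
    (B : Fin n → Tensors A r) (P : Matrix (Fin n) (Fin n) ℂ) (hM : IsMotive w B P)
    (N : Matrix (Fin n) (Fin n) ℝ) (hN : IsComplexStructure B N)
    (G : Subgroup (GL (Fin n) ℂ)) (hG : IsAlgebraicSubgroup G) (T : Matrix (Fin n) (Fin n) ℂ)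
    (hT : ∀ i j, IsAlgebraic ℚ (T i j)) (hP : P ∈ torsor G T) (U : Submodule ℝ (Fin n → ℝ))
    (b : (Fin n → ℝ) →ₗ[ℝ] (Fin n → ℝ) →ₗ[ℝ] ℝ) (hU : CompactOn B G U b) :
    (∀ X, InLie A X → ∀ M : Matrix (Fin n) (Fin n) ℚ, IsLieMatrix B X M → ∀ u ∈ U,
      (M.map (fun q => (q : ℝ)) * N - N * M.map fun q => (q : ℝ)) *ᵥ u = 0) ∧
    (U = ⊤ → ∀ x ∈ mumfordTate w B, ∀ y ∈ mumfordTate w B, x * y = y * x) := by
  obtain ⟨hM', Wt, hW⟩ : N208.AM.Mot w B P ∧ ∃ Wt, N208.AM.WRel w B Wt := by
    have hwt : ∃ M, N208.AM.WRel w B M := by
      obtain ⟨M, h⟩ := hM.weight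
      refine ⟨M, fun a i => MultilinearMap.ext fun v => ?_⟩
      rw [_root_.smul_apply, _root_.sum_apply, smul_eq_mul, h a i v]
      rfl
    refine ⟨⟨hM.basis, fun X hX => ?_, hwt, hM.det, hM.deRham⟩, hwt⟩
    obtain ⟨M, h⟩ := hM.lie X hX
    refine ⟨M, fun a i => MultilinearMap.ext fun v => ?_⟩
    rw [N208.AM.dact_apply, _root_.sum_apply, h a i v]
    rfl
  have hrelL : ∀ X M, N208.AM.Rel B X M ↔ IsLieMatrix B X M := by
    intro X M
    constructor
    · intro h a i v
      have h1 := congrArg (fun φ : MultilinearMap ℚ (fun _ : Fin (r i) => A.H1) ℚ => φ v) (h a i)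
      simp only [N208.AM.dact_apply, _root_.sum_apply, _root_.smul_apply, smul_eq_mul] at h1
      exact h1
    · intro h a i
      refine MultilinearMap.ext fun v => ?_
      rw [N208.AM.dact_apply, _root_.sum_apply, h a i v]
      rfl
  have hb : ∀ j : Fin (2 * g), A.bas j = Pi.single j 1 := fun j => by
    unfold AbVar.bas
    rw [Pi.basisFun_apply]
  have hrel : ∀ z R, N208.AM.HRel w B z R → IsHodgeMatrix w B z R := by
    intro z R h a i j
    have h1 := h a i j
    simp only [hb] at h1
    exact h1
  -- the complex structure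
  have hNR : N208.AM.RelR B AbVar.JJ N := by
    intro a i
    refine Basis.ext_multilinear (fun _ => A.lam) fun j => ?_
    have h1 := hN a i j
    rw [N208.AM.dact_apply, _root_.sum_apply]
    have h2 : (fun p => A.lam (j p)) = fun p => A.per (Pi.single (j p) 1) := by
      funext p
      rw [← hb, A.per_bas]
    have h3 : ∀ b, (N b a • A.Phi (B b i)) (fun p => A.lam (j p)) =
        N b a * (B b i (fun p => Pi.single (j p) 1) : ℝ) := fun b => by
      rw [_root_.smul_apply, smul_eq_mul, h2, A.Phi_per]
    rw [Finset.sum_congr rfl fun b _ => h3 b, ← h1]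
    refine Finset.sum_congr rfl fun k _ => ?_
    rw [AbVar.JJ_apply, ← A.lam.sum_repr (Complex.I • A.lam (j k)), MultilinearMap.map_update_sum]
    simp only [A.lam.sum_repr]
    refine Finset.sum_congr rfl fun l _ => ?_
    rw [MultilinearMap.map_update_smul, smul_eq_mul]
    congr 1
    have h4 : A.lam l = A.per (Pi.single l 1) := by rw [← hb, A.per_bas]
    rw [h2, h4, N208.AM.update_per, A.Phi_per]
  -- the group
  have hdet : T.det ≠ 0 := by
    obtain ⟨x, -, hxT⟩ := hP
    intro h0
    have h1 : (x : Matrix (Fin n) (Fin n) ℂ).det = 0 := by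
      rw [hxT, Matrix.det_mul, h0, mul_zero]
    exact (Matrix.GeneralLinearGroup.det x).ne_zero h1
  obtain ⟨T', h1, h2⟩ := Pool.Agent.R917.alg_inv hT hdet
  obtain ⟨x, hx, hxT⟩ := hP
  have hH : N208.AM.PtM P _ := ⟨Pool.Agent.R917.algGrp_of hG, T, T', h1, h2, x, hx, hxT⟩
  have hC : N208.NC.CU B {M | ∃ x ∈ G, (x : Matrix (Fin n) (Fin n) ℂ) = M} U b := by
    refine ⟨fun X hX M hM u hu => hU.stable X hX M ((hrelL X M).1 hM) u hu, hU.symm, hU.pos,
      fun X hX M hM hMG => hU.invariant X ?_ M ((hrelL X M).1 hM) fun t =>
        Pool.Agent.R917.exp_mem hH.grp fun d => (hMG d).smul t⟩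
    refine (Submodule.span_mono ?_) hX
    rintro _ ⟨X, hX, Y, hY, rfl⟩
    exact ⟨X, hX, Y, hY, rfl⟩
  have key := N208.NC.nc_main N208.NC.nce hM' hW hH hNR hC
  refine ⟨fun X hX M hM u hu => key X hX M ((hrelL X M).2 hM) u hu, fun hT => ?_⟩
  obtain ⟨G₁, h3, h4, h5⟩ := N208.NC.comm_of_N hM' hW hNR fun X hX M hM => by
    have h6 : ∀ u, (N208.AM.rq M * N - N * N208.AM.rq M) *ᵥ u = 0 := fun u =>
      key X hX M hM u (by rw [hT]; trivial)
    have h7 : N208.AM.rq M * N - N * N208.AM.rq M = 0 := by
      apply Matrix.ext_of_mulVec_single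
      intro i
      rw [h6, Matrix.zero_mulVec]
    exact sub_eq_zero.1 h7
  have h6 : mumfordTate w B ≤ G₁ := by
    refine sInf_le ⟨h3, fun z hz => ?_⟩
    obtain ⟨x, hx, hx'⟩ := h4 z hz
    exact ⟨x, hx, hrel _ _ hx'⟩
  exact fun x hx y hy => h5 x (h6 hx) y (h6 hy)

end Pool.Agent.Results.MP_470b79_ag.NoncompactPeriodGroups
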