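import Pool.Agent.N192.GP.TorW
import Pool.Agent.N192.GP.Exc

set_option autoImplicit false

/-!
# The period torsor of products of K3 surfaces and an arbitrary motive

Let `A i`, `i ∈ I`, be a family of abelian varieties over the field `ℚ̄` of algebraic numbers (the set `I`
may be infinite), and let `V` be **any** de Rham-Betti object over `ℚ̄`, for example the realization of
any André motive. Nothing is assumed about periods: `AbVar` is the description of an abelian variety
over `ℚ̄` by theta functions, and `dR` are its periods.

Let `A i` be of spin type with `k i` colours of rank `r i` (`SpinType`; for example the Kuga-Satake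
variety of a K3 surface, see below), and let the Lie algebra of the Hodge group of `A i` be without
ideals over `ℚ` if `r i ≥ 6` (`Simple`).

**Theorem.** For every de Rham-Betti structure `U` (of any rank) there is a set `E U` of *exceptional*
indices such that
* (a) `i` is not in `E U` if `U` is small in comparison with `A i` (`Small`; for example if
  `r i ≥ 7` and the rank of `U` is smaller than `k i * r i`);
* (b) `E U` is finite up to isogeny: if `S` is a finite subset of `E U`, such that `r i ≥ 6` for all
  `i ∈ S` and there are no homomorphisms between `A i` and `A j` for different elements `i`, `j` of `S`,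
  then the sum over `S` of the numbers `k i * b (r i)` is at most the rank of `U`, where `b r = r`
  for `r ≥ 7` and `b 6 = 4` (`bound`);
* (c) for all finite families `A' a` of the `A i` (the same `A i` may occur several times; at most one of
  the ranks is smaller than five) and all finite families `V j` which are built from structures for
  which the `A' a` are not exceptional (`Built`), the Hodge group of `∏ A' a` splits off from the
  period torsor of `V = ⊕ V j` (`TorsorSplits`):
  let `G` be an algebraic subgroup of `GL(M_B)`, `M = h¹(∏ A' a) ⊕ V`, defined over `ℚ`, such that the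
  comparison isomorphism of `M` is a point of a torsor of `G` over `ℚ̄` (`HasPoint`). Then
  1. `G` contains the group `Hg(∏ A' a) × 1`, where `Hg(∏ A' a)` is the Hodge group of `∏ A' a`, and `1`
    is the trivial group acting on `V` (`hodgeGroup`);
  2. for every nonzero complex number `z` there is an element of `G` which acts on `H¹(∏ A' a)` by the
    Hodge structure `h(z)`. So the projection of `G` to `GL(H¹(∏ A' a))` contains the Mumford-Tate
    group of `∏ A' a`. (If there are no `V j`, then `G` itself contains the Mumford-Tate group.)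

The group `G_dRB(M)` of the problem is the smallest group `G` as in (c). So (c) says that `G_dRB(M)` is
mapped onto `G_dRB(V)` and the kernel contains `Hg(∏ A' a)`. There is one assignment `E` for all
structures, all finite subfamilies and all constructions; for example, if `U` has a filtration whose
graded pieces are of rank smaller than `k i * r i`, then `A i` splits off from `U`, although the rank of
`U` may be large, and from all structures in the tensor category generated by `U`.

## What this says about `Ω^dRB = Ω^And`

Let `N` be an André motive whose realization is `V`, such that the Tate motive `ℚ(1)` is in `⟨N⟩` (one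
may add it to `N`), and let `M = h¹(∏ A' a) ⊕ N`. By the theorems of Deligne (Hodge classes on abelian
varieties are absolute) and André (they are motivated) the group `G_And(∏ A' a)` is the Mumford-Tate
group. So the kernel of `G_And(M) → G_And(N)` consists of elements of the Mumford-Tate group of
`∏ A' a` which act trivially on `ℚ(1)`, that is, it is contained in `Hg(∏ A' a) × 1`. The group
`G_dRB(M)` contains `Hg(∏ A' a) × 1` by the theorem, and it is mapped onto `G_dRB(N)`. Therefore **the
equality `Ω^dRB = Ω^And` holds for `M` if and only if it holds for `N`.**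

Let `X i`, `i ∈ I`, be a family of K3 surfaces over `ℚ̄` (or hyperkähler varieties with `b_2 > 3`, or
cubic fourfolds), with transcendental lattices `T i` whose endomorphisms form totally real fields `F i`
(for example `ℚ`, which is the general case; otherwise the field is a CM field) of degree `k i`, and let
`r i` be the dimension of `T i` over `F i`. By the theorem of Zarhin the Hodge group of `T i` is the
restriction of scalars of `SO_F(T i)`; the Kuga-Satake variety `A i` of `T i` satisfies
`SpinType (A i) (r i) (k i)` if `r i ≠ 5`, and `Simple (A i)` if `r i ≥ 6`. The motive of `X i` is in the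
tensor category of `h¹(A i)` and the Tate motive (André). Let all `r i` be at least seven, so that
`k i * bound (r i) = k i * r i` is the rank of `T i`. Then we have for **every** André motive `N` over
`ℚ̄` (with `ℚ(1)` in `⟨N⟩`):
* there is a subset `E` of `I` such that for all finite families `X_1, …, X_s` of the `X i`, `i ∉ E`, the
  equality `Ω^dRB = Ω^And` for `h(X_1) ⊕ … ⊕ h(X_s) ⊕ N` is equivalent to the equality for `N`;
* if there are no homomorphisms between the Kuga-Satake varieties of different `X i`, `i ∈ E`, then the
  sum of the ranks of the `T i`, `i ∈ E`, is at most the rank of `N`. So in every family of K3 surfaces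
  which are pairwise not isogenous in this sense, all but finitely many, with an explicit bound for the
  exceptions, split off from `N`. This cannot be improved: for `N = ⊕ T i`, `i ∈ E`, equality holds;
* if the rank of `N`, or the ranks of all simple factors of `N`, or the ranks of all simple factors of
  some motive whose tensor category contains `N`, are smaller than the rank of `T i`, then `i` is not
  in `E`.
So we have the equality for all objects of the tensor category generated by the `h(X_i)`, `i ∉ E`, and
by a motive `N` with the equality, for example by K3 surfaces and by elliptic curves. Nothing is known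
about the periods of `N` in general, nor about its Hodge classes.
(For `r i = 6` the bound is weaker, see `Small` and `bound`. One `r i` may be three or four instead if
`N` is potentially of CM type; for example `N = ℚ(1)`.)

## Relation to the files of the library

* `AnyVarietyTimesK3` is the case of one `A i`, with one colour (`F = ℚ`), `r ≥ 6`, of polarised `V j`
  of ranks smaller than `r` (symmetric form) or `r - 1` (alternating form); there the theorems of Deligne
  and Wüstholz for the Kuga-Satake variety are hypotheses. New here: **arbitrary `N` of any rank** (a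
  bound for the exceptions, instead of a condition on `N`), several `X_i`, which may be
  related by isogenies and triality (rank eight), totally real fields, the bound `dim V < dim T` without
  a polarisation or a weight filtration (mixed motives are allowed, and de Rham-Betti objects which
  do not come from motives), and the ranks three and four; and there are no hypotheses about periods.
* `MP_bf54cf_ag.SplitOff` (by the same author) is the statement about classes: all de Rham-Betti
  classes in the tensor powers of `M` are sums of products of Hodge classes and of de Rham-Betti classes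
  of `V`. The statement here is stronger, since torsors are not determined by classes
  if the group is not reductive.
* `MP_bf54cf_ag.ProductsOfK3` (by helper208) contains the torsors for products of `X_i` without `V`, for
  `r_i ≥ 6` and with the exception of pairs of rank eight.

## Proof

The Lie algebra of `G` contains the components over `ℚ` of the logarithmic derivatives of the
matrix of periods, for all derivations of `ℂ` over `ℚ̄` (`PtW.nn_mem`). So it contains the Lie algebra
generated by them. We show that this Lie algebra contains the endomorphism which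
defines the Hodge structure of `∏ A' a` and acts on `V` by zero (`Good.J_mem`), and also an element
which acts on `H¹(∏ A' a)` as a nonzero scalar, by the transcendence of `π` (`exists_weight`). Finally,
the exponentials of the elements of the Lie algebra of `G` are in `G`.

By the theorem of Schneider and Lang and the theorem on subalgebras of orthogonal Lie
algebras in `KugaSatake` the image of the Lie algebra in each `A i` is the whole Lie algebra `𝔤 i` of
the Hodge group. Consider the Lie algebra `𝔩` generated by the logarithmic derivatives of the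
periods of all structures at once. The set `E U` consists of the `i` such that `𝔤 i` is not the
image of the subalgebra of the elements of `𝔩` which act trivially on `U`. The lemmas of Goursat and Ribet, and
the fact that `𝔤 i` is perfect, show the statement (c) if there are no common quotients of two members
`A i` and `A i'`. Such a common quotient is an isomorphism `θ` of the two Lie algebras; by
contracting the equation `(ad Y) ^ 3 = - 4 ad Y` one shows that `θ (E_a E_b)` is again of square `-1`
(on a part of the representation, for `r = 8`), and by an average over a finite group there is a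
nonzero homomorphism of `A i` to `A i'` for `θ`; so `θ` respects the Hodge structures, and this is
enough for (c).

For (b), let `S` be as in (b). Then there are no common quotients of two of the `A i`, `i ∈ S`, by the
last argument. Since `𝔤 i` is simple over `ℚ`, all elements of `𝔩` (with trivial twist) which act
trivially on `U` act trivially on `A i` for `i ∈ S`. So the image of `𝔩` in `U` has, over `ℂ`, the
quotients `so(r i)` (`k i` times, for all `i ∈ S`), and it is mapped onto their sum. We show (`datG_dim`)
that the rank of `U` is at least the sum of the `b (r i)`: this is reduced to irreducible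
representations (by the filtration; a quotient which is not seen on a subrepresentation is seen on the
quotient, since it is simple and perfect), where the Lie algebra is reductive, and to commuting
representations without invariants of the `so(r i)` on one space. Then the eigenspaces of an element of
a Cartan subalgebra of one of them, of smallest rank, for two opposite eigenvalues, which are
exchanged by a rotation, are again representations of the others, so we have an induction (`SysG.dim`).
-/

open Module Matrix Pool.Agent.Y102 Pool.Agent.W516.DR Pool.Agent.H204R3.GP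

noncomputable section

namespace Pool.Agent.Results.MP_470b79_ag.SplitTorsors

/-- The period `(2 π i) ^ w` of the Tate twist. -/
def twist (w : ℤ) : ℂ := (2 * Real.pi * Complex.I) ^ w

section SpinType

variable {g : ℕ} (A : AbVar g)

/-- The multilinear forms in `2m` variables in the rational homology. -/
abbrev Form (m : ℕ) : Type := MultilinearMap ℚ (fun _ : Fin m × Fin 2 => A.H1) ℚ

/-- The endomorphism `X` annihilates the form `φ` (as a derivation). -/
def Annihilates {m : ℕ} (X : Module.End ℚ A.H1) (φ : Form A m) : Prop :=
  ∀ v, ∑ k, φ (Function.update v k (X (v k))) = 0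

/-- `X` is in the Lie algebra `𝔤`: it annihilates all classes in `H^1(A) ^ {⊗ 2m} (m)` that are Hodge
classes and de Rham-Betti classes. -/
def InLie (X : Module.End ℚ A.H1) : Prop :=
  ∀ (m : ℕ) (φ : Form A m), IsHodgeTensor (A.per : A.H1 →+ (Fin g → ℂ)) φ →
    IsDeRhamBettiForm QBar A.dR (2 * Real.pi * Complex.I) m φ → Annihilates A X φ

/-- The algebra of the endomorphisms of `H_1(A, ℂ)`, as matrices for the basis of the lattice. -/
abbrev EndC (_ : AbVar g) : Type := Matrix (Fin (2 * g)) (Fin (2 * g)) ℂ

/-- The matrix of the extension of an endomorphism of `H_1(A, ℚ)` to `H_1(A, ℂ)`. -/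
def toC (X : Module.End ℚ A.H1) : EndC A := Matrix.of fun i j => (X (Pi.single j 1) i : ℂ)

/-- The complex Lie algebra `𝔤 ⊗ ℂ`, acting on `H_1(A, ℂ)`. -/
def lieC : Submodule ℂ (EndC A) := Submodule.span ℂ {Y | ∃ X, InLie A X ∧ Y = toC A X}

/-- The `E i` are the generators of a Clifford algebra acting on `H_1(A, ℂ)`. -/
def Clifford {N : ℕ} (E : Fin N → EndC A) : Prop :=
  (∀ i, E i * E i = 1) ∧ ∀ i j, i ≠ j → E i * E j = -(E j * E i)

/-- Every colour `σ` is the colour `c j` of exactly `r` of the `j`. -/
def Uniform {N k : ℕ} (c : Fin N → Fin k) (r : ℕ) : Prop :=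
  ∀ σ, (Finset.univ.filter fun j => c j = σ).card = r

/-- The Lie algebra `𝔤 ⊗ ℂ` is a sum of `k` orthogonal Lie algebras `so(r)`, acting by spin
representations, and `r` is at least three and not five. -/
def SpinType (r k : ℕ) : Prop :=
  3 ≤ r ∧ r ≠ 5 ∧ ∃ (N : ℕ) (E : Fin N → EndC A) (c : Fin N → Fin k), Clifford A E ∧
    Uniform c r ∧ lieC A = Submodule.span ℂ {Y | ∃ i j, i ≠ j ∧ c i = c j ∧ Y = E i * E j}

/-- `N` is an ideal of the Lie algebra `𝔤`. -/
def IsIdeal (N : Submodule ℚ (Module.End ℚ A.H1)) : Prop :=
  ∀ Y ∈ N, InLie A Y ∧ ∀ X, InLie A X → X * Y - Y * X ∈ N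

/-- The Lie algebra `𝔤` has no ideals except zero and `𝔤`. -/
def Simple : Prop :=
  ∀ N, IsIdeal A N → ∀ Y ∈ N, Y ≠ 0 → ∀ X, InLie A X → X ∈ N

variable {A}

theorem SpinType.matK {r k : ℕ} (h : SpinType A r k) : Pool.Agent.N192.GP.SpinMatK A k r := by
  obtain ⟨h3, h5, N, E, c, ⟨e1, e2⟩, hc, hl⟩ := h
  exact ⟨N, E, c, h3, h5, e1, e2, hc, hl⟩

theorem Simple.noIdeals (h : Simple A) : Pool.Agent.N192.GP.NoIdeals A.NA := by
  intro N hN
  have h1 := h N fun Y hY => ⟨hN.1 hY, fun X hX => hN.2 X hX Y hY⟩
  by_cases h0 : N = ⊥
  · exact Or.inl h0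
  · obtain ⟨Y, hY, hY0⟩ := (Submodule.ne_bot_iff N).1 h0
    exact Or.inr (le_antisymm hN.1 fun X hX => h1 Y hY hY0 X hX)

end SpinType

/-- A de Rham-Betti structure of rank `d` over `ℚ̄`: the Betti side is the dual of `ℚ ^ d`, and the
de Rham side is given by a basis, whose elements are considered as linear functions on `ℚ ^ d` with
complex values (the periods are the values on the rational vectors); the independence means that the
comparison is an isomorphism. -/
structure Structure (d : ℕ) where
  /-- the basis of the de Rham side -/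
  dR : Fin d → ((Fin d → ℚ) →ₗ[ℚ] ℂ)
  indep : LinearIndependent ℂ dR

section Structures

variable {d d' d'' : ℕ}

/-- `B` is a de Rham-Betti class in `V' ⊗ V (w)`. -/
def IsPairing (V' : Structure d') (V : Structure d) (w : ℤ)
    (B : (Fin d' → ℚ) →ₗ[ℚ] (Fin d → ℚ) →ₗ[ℚ] ℚ) : Prop :=
  ∃ b : Fin d' → Fin d → QBar, ∀ u v,
    twist w * (B u v : ℂ) = ∑ i, ∑ j, algebraMap QBar ℂ (b i j) * (V'.dR i u * V.dR j v)

/-- `f` is (the transpose of) a homomorphism of de Rham-Betti structures from `V` to `V'`. -/
def IsHom (V' : Structure d') (V : Structure d) (f : (Fin d' → ℚ) →ₗ[ℚ] (Fin d → ℚ)) : Prop :=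
  ∃ a : Fin d → Fin d' → QBar, ∀ i u, V.dR i (f u) = ∑ j, algebraMap QBar ℂ (a i j) * V'.dR j u

/-- `β` is (the transpose of) a homomorphism from `V` to `V' ⊗ V'' (w)`. -/
def IsBilinear (V' : Structure d') (V'' : Structure d'') (V : Structure d) (w : ℤ)
    (β : (Fin d' → ℚ) →ₗ[ℚ] (Fin d'' → ℚ) →ₗ[ℚ] (Fin d → ℚ)) : Prop :=
  ∃ b : Fin d → Fin d' → Fin d'' → QBar, ∀ i u v, twist w * V.dR i (β u v) =
    ∑ j, ∑ k, algebraMap QBar ℂ (b i j k) * (V'.dR j u * V''.dR k v)

/-- `X` commutes with all de Rham-Betti endomorphisms. -/
def InCommutant (V : Structure d) (X : Module.End ℚ (Fin d → ℚ)) : Prop :=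
  ∀ P, IsDeRhamBettiEnd QBar V.dR P → ∀ u, X (P u) = P (X u)

/-- The structure `V` is of CM type: all endomorphisms of the vector space which commute with the
de Rham-Betti endomorphisms commute with each other. -/
def IsCM (V : Structure d) : Prop :=
  ∀ X Y, InCommutant V X → InCommutant V Y → ∀ u, X (Y u) = Y (X u)

/-- There is a nondegenerate symmetric form which is a de Rham-Betti class in `V ⊗ V (w)`. -/
def IsOrthogonal (V : Structure d) : Prop :=
  ∃ w B, IsPairing V V w B ∧ (∀ u, (∀ v, B u v = 0) → u = 0) ∧ ∀ u v, B u v = B v u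

/-- There is a nondegenerate alternating form which is a de Rham-Betti class in `V ⊗ V (w)`. -/
def IsSymplectic (V : Structure d) : Prop :=
  ∃ w B, IsPairing V V w B ∧ (∀ u, (∀ v, B u v = 0) → u = 0) ∧ ∀ u v, B u v = -B v u

/-- The structure `V` is small in comparison with a sum of `k` orthogonal Lie algebras of rank `r`. -/
def Small (V : Structure d) (r k : ℕ) : Prop :=
  IsCM V ∨ (7 ≤ r ∧ d < k * r) ∨
    (r = 6 ∧ (d < k * 4 ∨ (d < 6 ∧ IsOrthogonal V) ∨ (d < 5 ∧ IsSymplectic V)))

/-- The smallest class of de Rham-Betti structures which contains the structures with the property `P`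
and is closed under subobjects, quotients and extensions (`middle`: `V'' → V → V'` is exact in the
middle), tensor products and Tate twists (`tensor`: `V` is a subobject of `V' ⊗ V'' (w)`) and duals. -/
inductive Built (P : ∀ d : ℕ, Structure d → Prop) : ∀ {d : ℕ}, Structure d → Prop
  | base {d : ℕ} {V : Structure d} (h : P d V) : Built P V
  | middle {d d' d'' : ℕ} {V' : Structure d'} {V : Structure d} {V'' : Structure d''}
      (f : (Fin d' → ℚ) →ₗ[ℚ] (Fin d → ℚ)) (p : (Fin d → ℚ) →ₗ[ℚ] (Fin d'' → ℚ))
      (hf : IsHom V' V f) (hp : IsHom V V'' p) (hex : ∀ u, p u = 0 → ∃ u', f u' = u)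
      (h' : Built P V') (h'' : Built P V'') : Built P V
  | tensor {d d' d'' : ℕ} {V' : Structure d'} {V'' : Structure d''} {V : Structure d} (w : ℤ)
      (β : (Fin d' → ℚ) →ₗ[ℚ] (Fin d'' → ℚ) →ₗ[ℚ] (Fin d → ℚ)) (hβ : IsBilinear V' V'' V w β)
      (hs : Submodule.span ℚ {x | ∃ u v, β u v = x} = ⊤)
      (h' : Built P V') (h'' : Built P V'') : Built P V
  | dual {d d' : ℕ} {V' : Structure d'} {V : Structure d} (w : ℤ)
      (B : (Fin d' → ℚ) →ₗ[ℚ] (Fin d → ℚ) →ₗ[ℚ] ℚ) (hB : IsPairing V' V w B)
      (hn : ∀ v, (∀ u, B u v = 0) → v = 0) (h' : Built P V') : Built P V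

/-- The structure as a member of the family of all structures. -/
def toU (V : Structure d) : Pool.Agent.N192.GP.UU := ⟨d, ⟨V.dR, V.indep⟩⟩

/-- The Lie algebra of a structure of spin type splits off from small structures. -/
theorem Small.sep {s : Pool.Agent.N192.GP.UU} {r k : ℕ}
    (hk : Pool.Agent.N192.GP.SpinK (Pool.Agent.N192.GP.ggU s) k r) (h3 : 3 ≤ r)
    (hni : 6 ≤ r → Pool.Agent.N192.GP.NoIdeals (Pool.Agent.N192.GP.ggU s))
    {V : Structure d} (h : Small V r k) : Pool.Agent.N192.GP.SepU s (toU V) := by
  have hs := hk.spin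
  rcases h with h | ⟨h7, h⟩ | ⟨h6, h | ⟨hd, w, B, ⟨b, hb⟩, hB, hs'⟩ | ⟨hd, w, B, ⟨b, hb⟩, hB, hs'⟩⟩
  · exact Pool.Agent.N192.GP.sepU_small hs h3 (.cm fun X Y hX hY => LinearMap.ext (h X Y
      (fun P hP u => LinearMap.congr_fun (hX P hP) u)
      fun P hP u => LinearMap.congr_fun (hY P hP) u))
  · refine Pool.Agent.N192.GP.sepU_dim hk (by omega) (hni (by omega)) ?_
    have h1 : Pool.Agent.N192.GP.beta r = r := if_neg (by omega)
    rw [h1]
    exact h
  · refine Pool.Agent.N192.GP.sepU_dim hk (by omega) (hni (by omega)) ?_
    have h1 : Pool.Agent.N192.GP.beta r = 4 := if_pos h6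
    rw [h1]
    exact h
  · exact Pool.Agent.N192.GP.sepU_small hs h3 (.symm h6.ge w B hB hs' b hb (hd.trans_le h6.ge))
  · exact Pool.Agent.N192.GP.sepU_small hs h3 (.alt h6.ge w B hB hs' b hb
      ((Nat.succ_lt_succ hd).trans_le h6.ge))

/-- The structures from which a perfect Lie algebra splits off form a class which is closed under the
constructions. -/
theorem Built.sep {s : Pool.Agent.N192.GP.UU} {P : ∀ d : ℕ, Structure d → Prop}
    (hperf : Pool.Agent.N192.GP.ggU s ≤
      Pool.Agent.N192.GP.brk (Pool.Agent.N192.GP.ggU s) (Pool.Agent.N192.GP.ggU s))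
    (hP : ∀ (d : ℕ) (U : Structure d), P d U → Pool.Agent.N192.GP.SepU s (toU U))
    {V : Structure d} (h : Built P V) : Pool.Agent.N192.GP.SepU s (toU V) := by
  induction h with
  | base h => exact hP _ _ h
  | @middle _ _ _ V₁ V V₂ f p hf hp hex _ _ ih' ih'' =>
    exact Pool.Agent.N192.GP.sepU_middle (V' := toU V₁) (V := toU V) (V'' := toU V₂)
      hperf hf hp hex ih' ih''
  | @tensor _ _ _ V₁ V₂ V w β hβ hs' _ _ ih' ih'' =>
    exact Pool.Agent.N192.GP.sepU_tensor (V' := toU V₁) (V'' := toU V₂) (V := toU V)
      hperf hβ hs' ih' ih''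
  | @dual _ _ V₁ V w B hB hn _ ih' =>
    exact Pool.Agent.N192.GP.sepU_dual (V' := toU V₁) (V := toU V) hperf hB hn ih'

end Structures

section Family

variable {K J : Type} [Fintype K] [DecidableEq K] [Fintype J] [DecidableEq J]
  {g : K → ℕ} (A : ∀ a, AbVar (g a)) {d : J → ℕ} (V : ∀ j, Structure (d j))

/-- The basis of the Betti realization of `h¹(∏ A a) ⊕ V`: the dual of the bases of the lattices, and the
basis of `V j`. -/
abbrev Row (g : K → ℕ) (d : J → ℕ) : Type := (Σ a, Fin (2 * g a)) ⊕ (Σ j, Fin (d j))

/-- The basis of the de Rham realization of `h¹(∏ A a) ⊕ V`. -/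
abbrev Col (g : K → ℕ) (d : J → ℕ) : Type := (Σ a, Fin (g a) ⊕ Fin (g a)) ⊕ (Σ j, Fin (d j))

/-- The matrix of periods of the abelian variety `A`: the differential forms of the basis of
`H¹_dR(A / ℚ̄)` are integrated over the basis of the lattice. -/
def periodsA {g : ℕ} (A : AbVar g) : Matrix (Fin (2 * g)) (Fin g ⊕ Fin g) ℂ :=
  Matrix.of fun p q => A.dR q (Pi.single p 1)

/-- The matrix of periods of `V`. -/
def periodsV {d : ℕ} (V : Structure d) : Matrix (Fin d) (Fin d) ℂ :=
  Matrix.of fun p q => V.dR q (Pi.single p 1)

/-- The matrix of the comparison isomorphism of `h¹(∏ A a) ⊕ V`. -/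
def periods : Matrix (Row g d) (Col g d) ℂ :=
  fromBlocks (blockDiagonal' fun a => periodsA (A a)) 0 0 (blockDiagonal' fun j => periodsV (V j))

/-- A subgroup of `GL_R(ℂ)` defined by polynomials with rational coefficients. -/
def IsAlgebraicSubgroup {R : Type} [Fintype R] [DecidableEq R] (G : Subgroup (GL R ℂ)) : Prop :=
  ∃ S : Set (MvPolynomial (R × R) ℚ), ∀ x : GL R ℂ, x ∈ G ↔
    ∀ p ∈ S, MvPolynomial.aeval (fun b : R × R => (x : Matrix R R ℂ) b.1 b.2) p = 0

/-- The matrix `P` belongs to a torsor `G · T⁻¹` of `G` defined over `ℚ̄`. -/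
def HasPoint {R C : Type} [Fintype R] [DecidableEq R] [Fintype C] (P : Matrix R C ℂ)
    (G : Subgroup (GL R ℂ)) : Prop :=
  ∃ T : Matrix C R ℂ, (∀ i j, IsAlgebraic ℚ (T i j)) ∧ ∃ x ∈ G, (x : Matrix R R ℂ) = P * T

/-- The Hodge structure of `H¹(A)`: the complex number `z` acts on `H_1(A, ℝ) = ℂ ^ g` by
multiplication, and on `H¹(A, ℝ)` by the transposed map, here in the basis of `H¹(A, ℚ)` which is
dual to the basis of the lattice. -/
def hodge {g : ℕ} (A : AbVar g) (z : ℂ) : Matrix (Fin (2 * g)) (Fin (2 * g)) ℂ :=
  Matrix.of fun i j => ((A.lam.repr (z • A.lam i) j : ℝ) : ℂ)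

/-- The group `Hg(∏ A a) × 1`: the smallest algebraic group over `ℚ` which contains the action of the
complex numbers of absolute value one on `H¹(∏ A a)`, acting trivially on `V`. -/
def hodgeGroup (d : J → ℕ) : Subgroup (GL (Row g d) ℂ) :=
  sInf {G | IsAlgebraicSubgroup G ∧ ∀ z : ℂ, ‖z‖ = 1 → ∃ x ∈ G,
    (x : Matrix (Row g d) (Row g d) ℂ) = fromBlocks (blockDiagonal' fun a => hodge (A a) z) 0 0 1}

/-- The Hodge group of `∏ A a` splits off from the period torsor of `V = ⊕ V j`. -/
def TorsorSplits : Prop :=
  ∀ G : Subgroup (GL (Row g d) ℂ), IsAlgebraicSubgroup G → HasPoint (periods A V) G →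
    hodgeGroup A d ≤ G ∧ ∀ z : ℂ, z ≠ 0 → ∃ x ∈ G, ∃ v,
      (x : Matrix (Row g d) (Row g d) ℂ) =
        fromBlocks (blockDiagonal' fun a => hodge (A a) z) 0 0 v

/-- The main step. -/
theorem torsorSplits {r k : K → ℕ} (hspin : ∀ i, SpinType (A i) (r i) (k i))
    (hfour : ∀ i i', i ≠ i' → r i ≤ 4 → 6 ≤ r i') (hsimple : ∀ i, 6 ≤ r i → Simple (A i))
    (hsep : ∀ i j, Pool.Agent.N192.GP.SepU ⟨2 * g i, Pool.Agent.N192.GP.DA A i⟩ (toU (V j))) :
    TorsorSplits A V := by
  intro G hG hP
  let V' : ∀ j, Pool.Agent.N192.GP.DRS (d j) := fun j => ⟨(V j).dR, (V j).indep⟩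
  have hsp : ∀ i, Pool.Agent.N192.GP.SpinMatK (A i) (k i) (r i) := fun i => (hspin i).matK
  have h6 : ∀ i i', i ≠ i' → r i = r i' → 6 ≤ r i := by
    intro i i' hne hr
    by_contra hcon
    have h1 := (hspin i).2.1
    have h2 := hfour i i' hne (by omega)
    omega
  have hgood : Pool.Agent.N192.GP.Good A V' r :=
    ⟨fun i => (hsp i).mat, hfour, fun i i' hne hr => ⟨(hsimple i (h6 i i' hne hr)).noIdeals,
      (hsimple i' (h6 i' i (Ne.symm hne) hr.symm)).noIdeals⟩,
      fun i j => Pool.Agent.N192.GP.sep_final (hsep i j)⟩
  obtain ⟨T, hT, x, hx, hxT⟩ := hP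
  have hH := Pool.Agent.N192.GT.pt_of (A := A) (V := V') hG hT hx hxT
  refine ⟨sInf_le ⟨hG, fun z hz => ?_⟩, fun z hz => ?_⟩
  · obtain ⟨y, hy, hyz⟩ := Pool.Agent.N192.GT.rho_mem hgood hH hz
    refine ⟨y, hy, hyz.trans ?_⟩
    unfold Pool.Agent.N192.GT.rho
    rw [one_smul]
    rfl
  · obtain ⟨v, y, hy, hyz⟩ := Pool.Agent.N192.GT.torus_mem hgood hH hz
    exact ⟨y, hy, v, hyz⟩

end Family

/-- There are no nonzero homomorphisms from `A` to `A'`: linear maps of the rational homology which
respect the Hodge structures and the de Rham structures. -/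
def NoHom {g g' : ℕ} (A : AbVar g) (A' : AbVar g') : Prop :=
  ∀ f : A.H1 →ₗ[ℚ] A'.H1,
    (∃ Q : (Fin g → ℂ) →ₗ[ℂ] (Fin g' → ℂ), ∀ w, A'.per (f w) = Q (A.per w)) →
    (∃ a : (Fin g' ⊕ Fin g') → (Fin g ⊕ Fin g) → QBar, ∀ p w,
      A'.dR p (f w) = ∑ q, algebraMap QBar ℂ (a p q) * A.dR q w) → f = 0

/-- The smallest dimension of a nontrivial representation of `so(r)`, for `r ≥ 6`. -/
def bound (r : ℕ) : ℕ := if r = 6 then 4 else r

/-- **The exceptional abelian varieties of a de Rham-Betti structure.** -/
theorem result {I : Type} {g : I → ℕ} (A : ∀ i, AbVar (g i)) (r k : I → ℕ)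
    (hspin : ∀ i, SpinType (A i) (r i) (k i)) (hsimple : ∀ i, 6 ≤ r i → Simple (A i)) :
    ∃ E : ∀ d : ℕ, Structure d → Set I,
      (∀ (d : ℕ) (U : Structure d) (i : I), Small U (r i) (k i) → i ∉ E d U) ∧
      (∀ (d : ℕ) (U : Structure d) (S : Finset I), (∀ i ∈ S, i ∈ E d U ∧ 6 ≤ r i) →
        (∀ i ∈ S, ∀ j ∈ S, i ≠ j → NoHom (A i) (A j)) → ∑ i ∈ S, k i * bound (r i) ≤ d) ∧
      ∀ {K J : Type} [Fintype K] [DecidableEq K] [Fintype J] [DecidableEq J] (e : K → I)
        {d : J → ℕ} (V : ∀ j, Structure (d j)),
        (∀ a b, a ≠ b → r (e a) ≤ 4 → 6 ≤ r (e b)) →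
        (∀ a j, Built (fun d U => e a ∉ E d U) (V j)) → TorsorSplits (fun a => A (e a)) V := by
  classical
  have hsp : ∀ i, Pool.Agent.N192.GP.SpinMatK (A i) (k i) (r i) := fun i => (hspin i).matK
  have hsU : ∀ i, Pool.Agent.N192.GP.SpinK
      (Pool.Agent.N192.GP.ggU ⟨2 * g i, Pool.Agent.N192.GP.DA A i⟩) (k i) (r i) := fun i =>
    Pool.Agent.N192.GP.spinK_ggU (I := Unit) (A := fun _ => A i) (i := ()) (hsp i)
  have hni : ∀ i, 6 ≤ r i → Pool.Agent.N192.GP.NoIdeals
      (Pool.Agent.N192.GP.ggU ⟨2 * g i, Pool.Agent.N192.GP.DA A i⟩) := fun i h6 =>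
    Pool.Agent.N192.GP.noIdeals_ggU (I := Unit) (A := fun _ => A i) (i := ()) (hsp i).mat
      (hsimple i h6).noIdeals
  refine ⟨fun d U => {i | ¬Pool.Agent.N192.GP.SepU
    ⟨2 * g i, Pool.Agent.N192.GP.DA A i⟩ (toU U)}, fun d U i h h' => ?_, fun d U S hS hom => ?_,
    fun e d V hfour hbuilt => ?_⟩
  · exact h' (h.sep (hsU i) (hsp i).mat.three (hni i))
  · have h1 := Pool.Agent.N192.GP.exc_dim (I := S) (A := fun i : S => A i.1)
      (r := fun i => r i.1) (k := fun i => k i.1) (fun i => hsp i.1) (fun i => (hS i.1 i.2).2)
      (fun i => (hsimple i.1 (hS i.1 i.2).2).noIdeals)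
      (fun i i' hne f hf => hom i.1 i.2 i'.1 i'.2 (fun h => hne (Subtype.ext h)) f hf.1 hf.2)
      (U := ⟨U.dR, U.indep⟩) (fun i => (hS i.1 i.2).1)
    rwa [Finset.sum_coe_sort S (fun i => k i * Pool.Agent.N192.GP.beta (r i))] at h1
  · refine torsorSplits (fun a => A (e a)) V (r := fun a => r (e a)) (k := fun a => k (e a))
      (fun a => hspin (e a)) hfour (fun a => hsimple (e a)) fun a j => ?_
    exact (hbuilt a j).sep ((hsU (e a)).spin.perf (hsp (e a)).mat.three)
      fun d U hU => not_not.1 hU

end Pool.Agent.Results.MP_470b79_ag.SplitTorsors
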